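import Pool.Agent.H242.GX.All2

/-!
# Exterior foliations with point reflections as tangent involutions are unique to infinite order

Definitions (points of the plane are complex numbers; `Pool/Agent/H242/GX/Stm.lean`):

* `Supp p`: `p` is a `C^∞`, `2π`-periodic function with `p + p'' > 0`; `body p` is the convex body with the support function `p`
  in the direction `nu α = (sin α, -cos α)`, `gam p α` the point of its boundary with the outer normal `nu α` (every convex body
  whose boundary is smooth with nonvanishing curvature is of this form); `cr p` is the cube root of the radius of curvature `p + p''`;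
* `IsExteriorFoliation K U Y`: the foliation by closed convex curves (level sets of the `C^∞` function `Y` without critical
  points, defined on a neighbourhood `U` of the curve), `IsTangentDir K z v`: tangent lines.

Theorem. Let `Y₁`, `Y₂` be two exterior foliations of the same oval such that for every point `z` of the curve the functions `Y₁` and
`Y₂` are, near `z`, even on the tangent line (the involutions are point reflections near `z`; the neighbourhoods may depend
on `z`). Then for every `N` there is a polynomial `f` with `|Y₂ - f (Y₁)| ≤ C dist (·, K) ^ N` outside near the curve: the leaves of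
the two foliations agree to infinite order along the curve. Moreover the normal derivative of `Y₁` is a constant multiple of the cube
root of the radius of curvature: to first order the leaves are the affine parallel curves of the curve.

Together with `EveryOval` (existence for every oval) this describes these foliations up to flat changes of the leaves. For an ellipse
with centre `0` and equation `Q = 1` one can take `Y₁ = Q - 1`: then the leaves of every such foliation agree
to infinite order with the homothetic ellipses, a pencil of conics.

Proof: by induction on the order; the leading coefficient `w (φ)` of `Y₂ - f (Y₁) = y^n w (φ) + ...` satisfies a homogeneous linear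
differential equation of first order on the circle (the leading odd term on the tangent lines vanishes), which is also satisfied by
the `n`-th power of the leading coefficient of `Y₁`.
-/

open Set
open Pool.Agent.H242.GX

namespace Pool.Agent.H242.Replaced.FormalUniqueness

/-- Two exterior foliations of the same oval with tangent involutions that are point reflections (near the points) agree to
infinite order along the curve, and the normal derivative is proportional to the cube root of the radius of
curvature. -/
theorem result (p : ℝ → ℝ) (hp : Supp p) (U₁ U₂ : Set ℂ) (Y₁ Y₂ : ℂ → ℝ)
    (h₁ : IsExteriorFoliation (body p) U₁ Y₁) (h₂ : IsExteriorFoliation (body p) U₂ Y₂)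
    (e₁ : ∀ z ∈ frontier (body p), ∀ v : ℂ, IsTangentDir (body p) z v →
      ∃ r : ℝ, 0 < r ∧ ∀ t : ℝ, |t| < r → Y₁ (z + t • v) = Y₁ (z - t • v))
    (e₂ : ∀ z ∈ frontier (body p), ∀ v : ℂ, IsTangentDir (body p) z v →
      ∃ r : ℝ, 0 < r ∧ ∀ t : ℝ, |t| < r → Y₂ (z + t • v) = Y₂ (z - t • v)) :
    (∀ N : ℕ, ∃ (f : Polynomial ℝ) (C δ : ℝ), 0 < δ ∧
      ∀ z : ℂ, z ∉ interior (body p) → Metric.infDist z (body p) < δ →
        z ∈ U₁ ∧ z ∈ U₂ ∧ |Y₂ z - f.eval (Y₁ z)| ≤ C * Metric.infDist z (body p) ^ N) ∧
    ∃ κ : ℝ, 0 < κ ∧ ∀ θ : ℝ, fderiv ℝ Y₁ (gam p θ) (nu θ) = κ * cr p θ :=
  t_UNIQ p hp U₁ U₂ Y₁ Y₂ h₁ h₂ e₁ e₂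

end Pool.Agent.H242.Replaced.FormalUniqueness
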