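import Pool.Agent.H242.TM.Spec

set_option autoImplicit false

/-!
# Every region outside the small islands contains all possible momentum histories

Let `S_a (x, y) = (2x - y + a sin 2πx, x)` on the torus, with `|a| ≥ 5` (NO parameter is excluded),
and let `F_a` be its lift to the plane. The positions `x_n`, the first coordinates of an orbit of
`F_a`, and the momenta `P_n = x_{n+1} - x_n` satisfy `|P_{n+1} - P_n| ≤ |a|`. Let `X` be the closure
of the stable set of the fixed point `O = (0, 0)`; an open set which does not meet `X` is a union of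
periodic islands of size at most `3 / (4 |a|)`. Here, for every open set `U` which meets `X`, there
is a time `N` such that after the time `N` every history which the inequality above permits, up to
the additive constant `2`, is realised by a point of `U`, even of `U ∩ X`:

* every real sequence `s` with `|s_{k+2} - 2 s_{k+1} + s_k| ≤ |a| - 2` is followed by the positions:
  `|x_{N+k} - s_k| ≤ 1/2` for all `k ≥ 0`;
* every real sequence `P` with `|P_{k+1} - P_k| ≤ |a| - 2` is followed by the momenta:
  `|x_{N+k+1} - x_{N+k} - P_k| ≤ 1` for all `k ≥ 0`. So every region outside the islands contains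
  points with a bounded momentum, points whose momentum grows linearly or at any other slower rate,
  or oscillates in any prescribed manner;
* after a finite history of this kind, of any length, the orbit can be steered into any other given
  open set `V` which meets `X`, at any prescribed time after a time `M` which depends only on `V`.
-/

open Real MeasureTheory Filter Topology Set

namespace Pool.Agent.Results.MP_9ee088_an.MomentumShadowing

/-- The torus `ℝ² / ℤ²`. -/
abbrev Torus := UnitAddCircle × UnitAddCircle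

/-- `T` is the standard map `S_a` of the torus. -/
def IsStandardMap (a : ℝ) (T : Torus → Torus) : Prop :=
  ∀ x y : ℝ, T ((x : UnitAddCircle), (y : UnitAddCircle)) =
    (((2 * x - y + a * sin (2 * π * x) : ℝ) : UnitAddCircle), (x : UnitAddCircle))

/-- The lift `F_a` of `S_a` to the plane. -/
noncomputable def planeMap (a : ℝ) (p : ℝ × ℝ) : ℝ × ℝ :=
  (2 * p.1 - p.2 + a * sin (2 * π * p.1), p.1)

/-- The covering map from the plane to the torus. -/
noncomputable def proj (p : ℝ × ℝ) : Torus := ((p.1 : UnitAddCircle), (p.2 : UnitAddCircle))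

/-- The position `x_n` at time `n` of the orbit of `p` in the plane. -/
noncomputable def position (a : ℝ) (n : ℕ) (p : ℝ × ℝ) : ℝ := ((planeMap a)^[n] p).1

/-- The stable set of the fixed point `O = (0, 0)`: the points whose future converges to `O`. -/
def stableSet (T : Torus → Torus) : Set Torus :=
  {p | Tendsto (fun n : ℕ => T^[n] p) atTop (𝓝 (0, 0))}

theorem planeMap_eq (a : ℝ) : planeMap a = H242.TM.F a := by
  funext p
  unfold planeMap H242.TM.F H242.TM.phi
  congr 1
  ring

theorem proj_eq : proj = H242.TM.pr := rfl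

theorem stable_eq (a : ℝ) : stableSet (TH705.SM.S a) = H242.TM.Ws a := rfl

/-- **Every region outside the small islands contains all possible momentum histories.** -/
theorem result (a : ℝ) (ha : 5 ≤ |a|) (T : Torus → Torus) (hT : IsStandardMap a T)
    (U : Set Torus) (hU : IsOpen U) (hUX : (U ∩ closure (stableSet T)).Nonempty) :
    ∃ N : ℕ,
      -- (1) the positions follow any given sequence
      (∀ s : ℕ → ℝ, (∀ k, |s (k + 2) - 2 * s (k + 1) + s k| ≤ |a| - 2) →
        ∃ p : ℝ × ℝ, proj p ∈ U ∩ closure (stableSet T) ∧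
          ∀ k, |position a (N + k) p - s k| ≤ 1 / 2) ∧
      -- (2) the momenta follow any given sequence
      (∀ P : ℕ → ℝ, (∀ k, |P (k + 1) - P k| ≤ |a| - 2) →
        ∃ p : ℝ × ℝ, proj p ∈ U ∩ closure (stableSet T) ∧
          ∀ k, |(position a (N + k + 1) p - position a (N + k) p) - P k| ≤ 1) ∧
      -- (3) a finite history, followed by a visit to a given open set
      (∀ V : Set Torus, IsOpen V → (V ∩ closure (stableSet T)).Nonempty → ∃ M : ℕ,
        ∀ (K : ℕ) (s : ℕ → ℝ), (∀ k, k + 2 ≤ K → |s (k + 2) - 2 * s (k + 1) + s k| ≤ |a| - 2) →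
          ∀ m ≥ M, ∃ p : ℝ × ℝ, proj p ∈ U ∧ (∀ k ≤ K, |position a (N + k) p - s k| ≤ 1 / 2) ∧
            T^[N + K + m] (proj p) ∈ V) := by
  have hTS : T = TH705.SM.S a := TH705.SM.eq_S a T hT
  subst hTS
  have ha2 : 5 / 2 ≤ |a| := by linarith
  obtain ⟨N, hN⟩ := H242.TM.cell_open ha hU hUX
  have h1 : ∀ s : ℕ → ℝ, (∀ k, |s (k + 2) - 2 * s (k + 1) + s k| ≤ |a| - 2) →
        ∃ p : ℝ × ℝ, proj p ∈ U ∩ closure (stableSet (TH705.SM.S a)) ∧
          ∀ k, |position a (N + 2 + k) p - s k| ≤ 1 / 2 := by
    intro s hs
    obtain ⟨p, hp, hp2⟩ := H242.TM.itinerary ha2 hN hs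
    refine ⟨p, hp, fun k => ?_⟩
    unfold position
    rw [planeMap_eq]
    exact hp2 k
  refine ⟨N + 2, h1, ?_, ?_⟩
  · intro P hP
    obtain ⟨p, hp, hp2⟩ := h1 (fun k => ∑ i ∈ Finset.range k, P i) (fun k => by
      simp only [Finset.sum_range_succ]
      rw [show ∑ x ∈ Finset.range k, P x + P k + P (k + 1) -
        2 * (∑ x ∈ Finset.range k, P x + P k) + ∑ i ∈ Finset.range k, P i = P (k + 1) - P k by ring]
      exact hP k)
    refine ⟨p, hp, fun k => ?_⟩
    have e1 := abs_le.1 (hp2 k)
    have e2 := abs_le.1 (hp2 (k + 1))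
    simp only [Finset.sum_range_succ] at e2
    rw [← Nat.add_assoc] at e2
    rw [abs_le]
    constructor <;> linarith [e1.1, e1.2, e2.1, e2.2]
  · intro V hV hVX
    have hbox : ∃ M, ∀ n ≥ M, H242.TM.Box a ((TH705.SM.S a)^[n] '' (Prod.swap '' V)) := by
      apply H242.TM.open_box ha (H242.TM.isOpen_swap hV)
      rw [stable_eq, H242.TM.closure_eq ha] at hVX
      obtain ⟨x, hx, hx2⟩ := hVX
      obtain ⟨_, hy, ⟨z, hz, rfl⟩⟩ := mem_closure_iff.1 hx2 V hV hx
      exact ⟨z, ⟨Prod.swap z, hy, Prod.swap_swap z⟩, hz⟩
    obtain ⟨M, hM⟩ := hbox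
    refine ⟨M + 2, fun K s hs m hm => ?_⟩
    obtain ⟨p, hp, hp2, hp3⟩ := H242.TM.itinerary_visit ha2 hN (hM M le_rfl) hs hm
    refine ⟨p, hp, fun k hk => ?_, hp3⟩
    unfold position
    rw [planeMap_eq]
    exact hp2 k hk

end Pool.Agent.Results.MP_9ee088_an.MomentumShadowing
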